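import Pool.Agent.H176.DT.C13
import Pool.Agent.H176.DT.H8
import Pool.Agent.H176.DT.H12
import Pool.Agent.H176.DT.H13
import Pool.Agent.TH188.QS.LU
import Pool.Agent.Q40.SP.Cnt

/-!
MP_1a953e_ag: semistable uniformization, in all dimensions and characteristics, of the points whose
sequence of quadratic transforms is spanning infinitely often.

Let `k` be a (complete) discretely valued field with the ring of integers `O`, the uniformizer `π`
and the residue characteristic `p ≥ 0`. Let `X` be an integral projective `k`-scheme of any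
dimension with the function field `K`, with the projective flat model `𝒳` over `O`, and let `v` be a
point of the Berkovich analytification of `X` which lies over the generic point of `X`, that is, a
multiplicative norm `v` on `K` which extends the one of `k`. Suppose that the local ring `Q`, at the
centre of `v`, of some modification of `𝒳` is regular, and let `Q = Q 0, Q 1, ...` be the sequence
of the quadratic transforms of `Q` along `v`. The step at `l` is called spanning if the residue
field of `Q l` is perfect and all elements of the maximal ideal of `Q l` which are not in its square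
have the same value, that is, if the centre of `v` on the exceptional divisor, a projective space,
is not in a hyperplane over the residue field. Suppose that infinitely many steps are spanning, and
that `|π|` is not a `p`-th power in the value group of `v`. There is no condition on the extension
`K / k` and its defect, and the sequence need not be divergent. Then there are numbers `d`, prime to
`p`, and `N₀` such that, for every `N ≥ N₀` divisible by `d` (for example, prime to `p`), for
`l = k(ϖ)`, `ϖ ^ N = π`, with the ring of integers `O[ϖ]`, and for every preimage `v'` of `v` in the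
analytification of `X_l`, a blowing-up of `𝒳 ⊗ O[ϖ]` in a closed subscheme of the special fibre,
that is, an admissible blowing-up, is semistable at the specialization of `v'`: its local ring is
regular, and `ϖ` is a product of distinct elements of a regular system of parameters. In particular,
`v` is uniformizable, by a tamely ramified extension `l / k`.
-/

set_option autoImplicit false

universe u

namespace Pool.Agent.Results.MP_1a953e_ag.SpanningPoints

open IsLocalRing Pool.Agent.W418.LU2 Pool.Agent.TH188.QS Pool.Agent.Q40.RP Pool.Agent.Q40.SP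

/-- The local ring of `Spec B` at the centre of the valuation ring `V`: the fractions of elements
of `B` whose denominators are units of `V`. -/
def centreRing {F : Type u} [Field F] (V : ValuationSubring F) (B : Subring F) : Subring F where
  carrier := {x | ∃ a ∈ B, ∃ b ∈ B, b ≠ 0 ∧ b⁻¹ ∈ V ∧ x = a * b⁻¹}
  mul_mem' := by
    rintro x y ⟨a, ha, b, hb, hb0, hbA, rfl⟩ ⟨c, hc, d, hd, hd0, hdA, rfl⟩
    refine ⟨a * c, B.mul_mem ha hc, b * d, B.mul_mem hb hd, mul_ne_zero hb0 hd0, ?_, ?_⟩
    · rw [mul_inv]; exact V.mul_mem _ _ hbA hdA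
    · rw [mul_inv]; ring
  one_mem' := ⟨1, B.one_mem, 1, B.one_mem, one_ne_zero, by rw [inv_one]; exact V.one_mem, by simp⟩
  add_mem' := by
    rintro x y ⟨a, ha, b, hb, hb0, hbA, rfl⟩ ⟨c, hc, d, hd, hd0, hdA, rfl⟩
    refine ⟨a * d + c * b, B.add_mem (B.mul_mem ha hd) (B.mul_mem hc hb), b * d,
      B.mul_mem hb hd, mul_ne_zero hb0 hd0, ?_, ?_⟩
    · rw [mul_inv]; exact V.mul_mem _ _ hbA hdA
    · field_simp
  zero_mem' := ⟨0, B.zero_mem, 1, B.one_mem, one_ne_zero, by rw [inv_one]; exact V.one_mem,
    by simp⟩
  neg_mem' := by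
    rintro x ⟨a, ha, b, hb, hb0, hbA, rfl⟩
    exact ⟨-a, B.neg_mem ha, b, hb, hb0, hbA, by ring⟩

section transforms

variable {K : Type u} [Field K]

/-- The quadratic transform of `P` along `V`: the local ring at the centre of `V` of the blowing-up
of the closed point of `Spec P`. It is the local ring at the centre of `V` of the algebra generated
by the ratios `y / z` of elements of the maximal ideal, where `z` has the minimal value (in the
multiplicative notation of Mathlib, the maximal `V.valuation z`). -/
def quadraticTransform (V : ValuationSubring K) (P : Subring K) : Subring K :=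
  centreRing V (Subring.closure ((P : Set K) ∪ {t | ∃ y ∈ P, ∃ z ∈ P, V.valuation y < 1 ∧
    z ≠ 0 ∧ V.valuation z < 1 ∧
      (∀ w ∈ P, V.valuation w < 1 → V.valuation w ≤ V.valuation z) ∧ t = y / z}))

/-- The sequence of the quadratic transforms of `O` along `V`. -/
def transforms (V : ValuationSubring K) (O : Subring K) : ℕ → Subring K
  | 0 => O
  | l + 1 => quadraticTransform V (transforms V O l)

/-- The residue field of the local ring `P` is perfect, and all elements of the maximal ideal of `P`
which are not in its square have the same value (the centre of `V` on the blowing-up of the closed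
point of `Spec P` is not on the strict transform of a regular hypersurface). -/
def IsSpanning (V : ValuationSubring K) (P : Subring K) : Prop :=
  ∃ _ : IsLocalRing P, PerfectField (ResidueField P) ∧
    ∀ a b : P, a ∈ maximalIdeal P → a ∉ maximalIdeal P ^ 2 → b ∈ maximalIdeal P →
      b ∉ maximalIdeal P ^ 2 → V.valuation (a : K) = V.valuation (b : K)

/-- `Q` is the local ring of `Spec A[T]` at the centre of `V` for a finite subset `T` of `V` which
consists of fractions of elements of `A`. -/
def IsModification (V : ValuationSubring K) (A Q : Subring K) : Prop :=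
  ∃ T : Set K, T.Finite ∧ (∀ t ∈ T, t ∈ V ∧ ∃ g ∈ A, g ≠ 0 ∧ t * g ∈ A) ∧
    Q = centreRing V (Subring.closure ((A : Set K) ∪ T))

end transforms

/-- The subring `P` of the field `K` is a regular local ring, and `ϖ` is the product of some (at
least one) of the elements of a regular system of parameters. (If `ϖ` is a uniformizer of a discrete
valuation ring `O` with perfect residue field and `P` is the local ring of an integral flat
`O`-scheme of finite type at a point of the special fibre, then these elements `t i` define a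
morphism from a neighbourhood of this point to `Spec O[t 0, ..., t d] / (t 0 * ... * t d - ϖ)` which
is flat with regular, hence smooth, fibre through this point; so it is smooth there.) -/
def IsSemistable {K : Type u} [Field K] (P : Subring K) (ϖ : K) : Prop :=
  ∃ (_ : IsRegularLocalRing P) (n : ℕ) (x : Fin n → P) (S : Finset (Fin n)),
    Ideal.span (Set.range x) = IsLocalRing.maximalIdeal P ∧ ringKrullDim P = n ∧
      S.Nonempty ∧ ϖ = ∏ i ∈ S, (x i : K)

/-- The coordinate ring `O[v / w : v ∈ W]` of the chart `w ≠ 0` of the projective `O`-scheme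
`Proj O[W]` with the function field `K` and the homogeneous coordinates `W ⊆ K`. -/
def chart {K : Type u} [Field K] (O : Subring K) (W : Set K) (w : K) : Subring K :=
  Subring.closure ((O : Set K) ∪ {z | ∃ v ∈ W, z = v / w})

/-- `Y` is a finite set of forms of some degree `d` over `O` in the homogeneous coordinates `W`,
and `p ^ n` times any form of degree `d` is a linear combination of the forms in `Y`, for some `n`.
So the closed subscheme of `Proj O[W]` defined by the forms in `Y` is contained in the
fibre over `p`. -/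
def IsVerticalCentre {K : Type u} [Field K] (O : Subring K) (p : K) (W Y : Set K) : Prop :=
  Y.Finite ∧ ∃ d n : ℕ, Y ⊆ ((Submodule.span O W) ^ d : Submodule O K) ∧
    ∀ z ∈ (Submodule.span O W) ^ d, p ^ n * z ∈ Submodule.span O Y

/-- The homogeneous coordinates of the blowing-up of `Proj O[W]` in the closed subscheme which is
defined by the forms in `Y`. -/
def blowUpCoordinates {K : Type u} [Field K] (W Y : Set K) : Set K :=
  {z | ∃ y ∈ Y, ∃ v ∈ W, z = y * v}

/-- The projective scheme `Proj O[W]` is semistable at the centre of `V`, which lies in the chart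
`w ≠ 0`. -/
def IsSemistableAt {K : Type u} [Field K] (V : ValuationSubring K) (O : Subring K) (W : Set K)
    (ϖ : K) : Prop :=
  ∃ w ∈ W, w ≠ 0 ∧ (∀ v ∈ W, v / w ∈ V) ∧ IsSemistable (centreRing V (chart O W w)) ϖ

/-- The ring `O[ϖ]`. (If `O` is a discrete valuation ring with the uniformizer `π = ϖ ^ N`, then it
is the ring of integers of the totally ramified extension `k(ϖ)` of the field of fractions `k` of
`O`.) -/
def ramifiedRing {L K' : Type u} [Field L] [Field K'] (φ : L →+* K') (O : Subring L) (ϖ : K') :
    Subring K' :=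
  Subring.closure ((O.map φ : Set K') ∪ {ϖ})

/-- `K' = K(ϖ)` with `ϖ ^ N = π`, and `V'` is a valuation ring of `K'` over the valuation ring `V`
of `K`. -/
def IsLift {K K' : Type u} [Field K] [Field K'] [Algebra K K'] (V : ValuationSubring K) (π : K)
    (N : ℕ) (V' : ValuationSubring K') (ϖ : K') : Prop :=
  V'.comap (algebraMap K K') = V ∧ ϖ ^ N = algebraMap K K' π ∧
    ∀ z : K', z ∈ Subfield.closure (Set.range (algebraMap K K') ∪ {ϖ})

lemma nu_iff {K : Type u} [Field K] {V : ValuationSubring K} {y : K} : NU V.toSubring y ↔ V.valuation y < 1 := by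
  unfold NU
  constructor
  · intro h
    by_contra hlt
    rw [not_lt] at hlt
    have h0 : y ≠ 0 := by
      rintro rfl
      rw [map_zero] at hlt
      exact absurd hlt (not_le.2 zero_lt_one)
    refine h ⟨h0, ?_⟩
    change y⁻¹ ∈ V
    rw [← V.valuation_le_one_iff, map_inv₀]
    exact inv_le_one_of_one_le₀ hlt
  · rintro h ⟨h0, h1⟩
    have h2 := (V.valuation_le_one_iff _).2 h1
    rw [map_inv₀] at h2
    have h4 : V.valuation y ≠ 0 := (Valuation.ne_zero_iff _).2 h0
    exact absurd h2 (not_le.2 ((one_lt_inv₀ (zero_lt_iff.2 h4)).2 h))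

lemma qt_iff {K : Type u} [Field K] (V : ValuationSubring K) (P : Subring K) :
    quadraticTransform V P = qt V.toSubring P := by
  unfold quadraticTransform qt
  have h1 : {t | ∃ y ∈ P, ∃ z ∈ P, V.valuation y < 1 ∧ z ≠ 0 ∧ V.valuation z < 1 ∧
      (∀ w ∈ P, V.valuation w < 1 → V.valuation w ≤ V.valuation z) ∧ t = y / z} =
      {t | ∃ y ∈ P, ∃ z, NU V.toSubring y ∧ Mi V.toSubring P z ∧ t = y * z⁻¹} := by
    ext t
    constructor
    · rintro ⟨y, hy, z, hz, hy1, hz0, hz1, hmin, rfl⟩
      refine ⟨y, hy, z, nu_iff.2 hy1, ⟨hz, hz0, fun h => nu_iff.2 hz1 ⟨hz0, h⟩, fun w hw hwn => ?_⟩,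
        div_eq_mul_inv _ _⟩
      have h4 : V.valuation z ≠ 0 := (Valuation.ne_zero_iff _).2 hz0
      change w * z⁻¹ ∈ V
      rw [← V.valuation_le_one_iff, map_mul, map_inv₀, ← div_eq_mul_inv,
        div_le_one₀ (zero_lt_iff.2 h4)]
      exact hmin w hw (nu_iff.1 hwn)
    · rintro ⟨y, hy, z, hyn, hz, rfl⟩
      refine ⟨y, hy, z, hz.mem, nu_iff.1 hyn, hz.ne, nu_iff.1 hz.NU, fun w hw hw1 => ?_,
        (div_eq_mul_inv _ _).symm⟩
      have h4 : V.valuation z ≠ 0 := (Valuation.ne_zero_iff _).2 hz.ne
      have h5 : w * z⁻¹ ∈ V := hz.min w hw (nu_iff.2 hw1)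
      rwa [← V.valuation_le_one_iff, map_mul, map_inv₀, ← div_eq_mul_inv,
        div_le_one₀ (zero_lt_iff.2 h4)] at h5
  rw [h1]
  rfl

/-- Let `v` be a multiplicative norm on a field `K` with the valuation ring `V`. Let `O ⊆ V` be a
noetherian domain (for example, `O = k°` for a discretely valued field `k`), and let `π ≠ 0` be an
element of `O` with `|π| < 1` (for example, a uniformizer of `k`). Let `𝒳` be an integral projective
`O`-scheme with function field `K` and with the homogeneous coordinates `W`; let the chart `w ≠ 0`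
contain the centre of `V`. Suppose that the local ring `Q` at the centre of `V` of a modification of
this chart is regular, that infinitely many steps of the sequence of quadratic transforms of `Q`
along `V` are spanning, and that `|π|` is not a `p`-th power in the value group of `v` if `p` is the
residue characteristic of `v`.

Then there are `d` with `|d| = 1` and `N₀` such that for all `N ≥ N₀` divisible by `d` there are
`K' = K(ϖ)`, `ϖ ^ N = π`, and valuation rings `V'` of `K'` over `V`, and for all such `K'` and `V'`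
there is a closed subscheme of the fibre of `𝒳 ⊗ O[ϖ]` over `ϖ = 0` such that the blowing-up in this
subscheme (the main component if `K ⊗ k(ϖ)` is not a field) is semistable at the centre of `V'`. -/
theorem result {K : Type u} [Field K] (v : Valuation K NNReal)
    (O : Subring K) [IsNoetherianRing O] (hO : ∀ a ∈ O, v a ≤ 1)
    (π : K) (hπ : π ∈ O) (hπ0 : π ≠ 0) (hπ1 : v π < 1)
    (hdiv : ∀ p : ℕ, p.Prime → v (p : K) < 1 → ∀ z : K, v z ^ p ≠ v π)
    (W : Set K) (hW : W.Finite) (w : K) (hw : w ∈ W) (hw0 : w ≠ 0)
    (hwV : ∀ z ∈ W, v (z / w) ≤ 1)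
    (hWK : ∀ z : K, ∃ a ∈ chart O W w, ∃ b ∈ chart O W w, b ≠ 0 ∧ z = a * b⁻¹)
    (Q : Subring K) [IsRegularLocalRing Q]
    (hQ : IsModification v.valuationSubring (chart O W w) Q)
    (hsp : ∀ N, ∃ l, N ≤ l ∧
      IsSpanning v.valuationSubring (transforms v.valuationSubring Q l)) :
    ∃ d N₀ : ℕ, 0 < d ∧ v (d : K) = 1 ∧ ∀ N : ℕ, N₀ ≤ N → d ∣ N →
      (∃ (K' : Type u) (_ : Field K') (_ : Algebra K K') (V' : ValuationSubring K') (ϖ : K'),
        IsLift v.valuationSubring π N V' ϖ) ∧
      ∀ {K' : Type u} [Field K'] [Algebra K K'] (V' : ValuationSubring K') (ϖ : K'),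
        IsLift v.valuationSubring π N V' ϖ →
        ∃ Y : Set K',
          IsVerticalCentre (ramifiedRing (algebraMap K K') O ϖ) ϖ (algebraMap K K' '' W) Y ∧
          IsSemistableAt V' (ramifiedRing (algebraMap K K') O ϖ)
            (blowUpCoordinates (algebraMap K K' '' W) Y) ϖ := by
  have hchV : chart O W w ≤ v.valuationSubring.toSubring := by
    unfold chart
    rw [Subring.closure_le]
    rintro z (hz | ⟨y, hy, rfl⟩)
    · exact hO z hz
    · exact hwV y hy
  have hMod : Pool.Agent.H176.DT.Mod v.valuationSubring (chart O W w) := ⟨hchV, hWK⟩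
  have hT : ({z | ∃ y ∈ W, z = y / w} : Set K).Finite := by
    refine (hW.image fun y => y / w).subset ?_
    rintro z ⟨y, hy, rfl⟩
    exact ⟨y, hy, rfl⟩
  haveI hnoe : IsNoetherianRing (chart O W w) := noeth_cl hT
  set V := v.valuationSubring with hV
  obtain ⟨T, hTf, hTV, hQe⟩ := hQ
  have hBV : Subring.closure ((chart O W w : Set K) ∪ T) ≤ V.toSubring := by
    rw [Subring.closure_le]
    rintro z (hz | hz)
    · exact hchV hz
    · exact (hTV z hz).1
  have hBQ : Subring.closure ((chart O W w : Set K) ∪ T) ≤ Q := by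
    intro z hz
    rw [hQe]
    exact ⟨z, hz, 1, Subring.one_mem _, one_ne_zero, by rw [inv_one]; exact V.one_mem,
      by rw [inv_one, mul_one]⟩
  have hAQ : chart O W w ≤ Q := fun z hz => hBQ (Subring.subset_closure (Or.inl hz))
  have hQV : Q ≤ V.toSubring := by
    intro z hz
    rw [hQe] at hz
    obtain ⟨a, ha, b, hb, hb0, hbV, rfl⟩ := hz
    exact V.mul_mem _ _ (hBV ha) hbV
  have hIC : ∀ a ∈ Q, a ≠ 0 → a⁻¹ ∈ V → a⁻¹ ∈ Q := by
    intro z hz hz0 hzV
    rw [hQe] at hz ⊢
    obtain ⟨a, ha, b, hb, hb0, hbV, rfl⟩ := hz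
    have ha0 : a ≠ 0 := left_ne_zero_of_mul hz0
    refine ⟨b, hb, a, ha, ha0, ?_, ?_⟩
    · have h1 : a⁻¹ = (a * b⁻¹)⁻¹ * b⁻¹ := by field_simp
      rw [h1]
      exact V.mul_mem _ _ hzV hbV
    · rw [mul_inv, inv_inv, mul_comm]
  have hπV : π⁻¹ ∉ V := by
    intro h
    have h1 : v π⁻¹ ≤ 1 := h
    rw [map_inv₀] at h1
    have h2 : 0 < v π := zero_lt_iff.2 ((Valuation.ne_zero_iff _).2 hπ0)
    exact absurd h1 (not_le.2 ((one_lt_inv₀ h2).2 hπ1))
  have hOA : O ≤ chart O W w := fun z hz => Subring.subset_closure (Or.inl hz)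
  have hfield : ¬ IsField Q := by
    intro hF
    have h1 : (⟨π, hAQ (hOA hπ)⟩ : Q) ≠ 0 := fun h => hπ0 (congrArg Subtype.val h)
    obtain ⟨b, hb⟩ := hF.mul_inv_cancel h1
    have h2 : π * (b : K) = 1 := congrArg Subtype.val hb
    have h3 : π⁻¹ = (b : K) := inv_eq_of_mul_eq_one_right h2
    exact hπV (h3 ▸ hQV b.2)
  have hQs : ∀ l, transforms V Q (l + 1) = qt V.toSubring (transforms V Q l) := fun l =>
    qt_iff V _
  have hreg0 : IsRegularLocalRing (transforms V Q 0) := ‹IsRegularLocalRing Q›
  obtain ⟨-, -, -, h3⟩ := main (Q := transforms V Q) hreg0 hfield (fun z => by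
      obtain ⟨a, ha, b, hb, hb0, rfl⟩ := hWK z
      exact ⟨a, hAQ ha, b, hAQ hb, hb0, rfl⟩) hQV hIC hQs
    (fun N => by
      obtain ⟨l, hl, _, h1, h2⟩ := hsp N
      exact ⟨l, hl, fun _ => ⟨h1, h2⟩⟩)
  obtain ⟨g, hg⟩ := fg_of (V := V) hTf (fun t ht => (hTV t ht).1) (fun t ht => (hTV t ht).2) hQe
  have hLU : LogUnif V (chart O W w) := h3 _ hchV hnoe 0 g hg
  have h2 : Pool.Agent.H176.DT.SU V (chart O W w) :=
    Pool.Agent.H176.DT.p_base _ _ hMod hLU
  obtain ⟨d, N₀, hd, hvd, h3⟩ := Pool.Agent.H176.DT.ss_main Pool.Agent.H176.DT.p_et6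
    Pool.Agent.H176.DT.p_tor6 Pool.Agent.H176.DT.p_comb6 v O hO hW hw hw0 hwV hMod h2
    π hπ0 hπ1 hdiv
  refine ⟨d, N₀ + 1, hd, hvd, fun N hN' hdN =>
    ⟨Pool.Agent.H176.DT.exists_root _ _ (by omega), ?_⟩⟩
  have hN : N₀ ≤ N := by omega
  rintro K' _ _ V' ϖ ⟨hV', hϖ, hgen⟩
  obtain ⟨Y, d', n', h4, h5, h6, w', h7, h8, h9, P, h10, h11⟩ := h3 N hN hdN V' ϖ hV' hϖ hgen
  have h12 : ramifiedRing (algebraMap K K') O ϖ = Pool.Agent.H176.DT.Orm O ϖ := rfl
  rw [h12]
  refine ⟨Y, ⟨h4, d', n', h5, h6⟩, w', h7, h8, h9, ?_⟩
  have h13 : centreRing V' (chart (Pool.Agent.H176.DT.Orm O ϖ)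
      (blowUpCoordinates (algebraMap K K' '' W) Y) w') = P := h10
  rw [h13]
  exact h11

end Pool.Agent.Results.MP_1a953e_ag.SpanningPoints
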